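import Pool.Agent.W581.HQ.Stm

/-! Project HQ (MP_515557_an), part R3A: rank-one lines through nonsymmetric matrices. -/

set_option autoImplicit false

namespace Pool.Agent.W377.HQ.R3A

open MeasureTheory Set Filter Topology
open Pool.Agent.W360.MQ (cab RankOneConvex)
open Pool.Agent.W581.HQ

theorem rank_dg (s : ℝ) (hs : s ≠ 0) : (!![s, 0; 0, 0] : M2).rank = 1 := by
  have h1 : (!![s, 0; 0, 0] : M2) = Matrix.diagonal ![s, 0] := by
    ext i j
    fin_cases i <;> fin_cases j <;> simp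
  rw [h1, Matrix.rank_diagonal, Fintype.card_eq_one_iff]
  refine ⟨⟨0, by simpa using hs⟩, ?_⟩
  rintro ⟨y, hy⟩
  fin_cases y
  · rfl
  · exact absurd rfl hy

/-- the line -/
def MM (P k q : ℝ) : M2 := !![q, -P; P, -k]

theorem cvx (W : M2 → ℝ) (hW : RankOneConvex W) (P k : ℝ) :
    ConvexOn ℝ univ (fun y => W (MM P k (2 * y - k))) := by
  refine ⟨convex_univ, ?_⟩
  intro y1 _ y2 _ a b ha hb hab
  simp only [smul_eq_mul]
  by_cases h : y1 = y2
  · subst h
    have h1 : a * y1 + b * y1 = y1 := by rw [← add_mul, hab, one_mul]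
    rw [h1, ← add_mul, hab, one_mul]
  · have h1 := hW (MM P k (2 * y1 - k)) !![2 * (y2 - y1), 0; 0, 0]
      (rank_dg _ (mul_ne_zero two_ne_zero (sub_ne_zero.2 (Ne.symm h)))) b hb (by linarith)
    have e1 : MM P k (2 * y1 - k) + !![2 * (y2 - y1), 0; 0, 0] = MM P k (2 * y2 - k) := by
      ext i j
      fin_cases i <;> fin_cases j <;> simp [MM]
      ring
    have e2 : (1 - b) • MM P k (2 * y1 - k) + b • MM P k (2 * y2 - k) =
        MM P k (2 * (a * y1 + b * y2) - k) := by
      obtain rfl : a = 1 - b := by linarith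
      ext i j
      fin_cases i <;> fin_cases j <;> simp [MM] <;> ring
    rw [e1, e2] at h1
    obtain rfl : a = 1 - b := by linarith
    exact h1

theorem norm_div_two (a b : ℝ) : ‖((a : ℂ) + (b : ℂ) * Complex.I) / 2‖ = √(a ^ 2 + b ^ 2) / 2 := by
  rw [norm_div, Complex.norm_add_mul_I]
  norm_num

theorem main (h : S_REP) : S_R3A := by
  intro p W hyp t ht k hk1 hk2
  have hnn : 0 ≤ (1 - k) * (t + k) := mul_nonneg (by linarith) (by linarith)
  refine ⟨fun y => W (MM (√((1 - k) * (t + k))) k (2 * y - k)), cvx W hyp.roc _ _, ?_⟩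
  have hk0 : (1 : ℝ) - k ≠ 0 := by linarith
  have hcont : ContinuousAt (fun s => dl t k s) 1 := by
    unfold dl
    exact (continuousAt_const.div (continuousAt_id.sub continuousAt_const) hk0).sub continuousAt_const
  have hd1 : dl t k 1 = t := by
    unfold dl
    field_simp
    ring
  have hlim : Tendsto (fun s => dl t k s) (𝓝 1) (𝓝 t) := by
    have := hcont.tendsto
    rwa [hd1] at this
  have hA : ∀ᶠ s in 𝓝 (1 : ℝ), 0 < s - dl t k s := by
    have h1 : Tendsto (fun s : ℝ => s - dl t k s) (𝓝 1) (𝓝 (1 - t)) := tendsto_id.sub hlim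
    exact h1.eventually (lt_mem_nhds (by linarith [ht.2]))
  have hB : ∀ᶠ s in 𝓝 (1 : ℝ), 0 < s + dl t k s := by
    have h1 : Tendsto (fun s : ℝ => s + dl t k s) (𝓝 1) (𝓝 (1 + t)) := tendsto_id.add hlim
    exact h1.eventually (lt_mem_nhds (by linarith [ht.1]))
  have hC : ∀ᶠ s in 𝓝 (1 : ℝ), k < s := lt_mem_nhds hk2
  filter_upwards [hA, hB, hC] with s h1 h2 h3
  have hdk : (s - k) * (dl t k s + k) = (1 - k) * (t + k) := by
    unfold dl
    have : s - k ≠ 0 := by linarith
    field_simp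
    ring
  obtain ⟨d, hd⟩ : ∃ d, d = dl t k s := ⟨_, rfl⟩
  rw [← hd] at h1 h2 hdk ⊢
  rw [h p W hyp]
  have hq : 2 * ((s - d) / 2) - k = s - d - k := by ring
  rw [hq]
  have hn1 : ‖(cab (MM (√((1 - k) * (t + k))) k (s - d - k))).1‖ = (s + d) / 2 := by
    simp only [cab, MM, Matrix.of_apply, Matrix.cons_val', Matrix.cons_val_zero, Matrix.cons_val_one,
      Matrix.cons_val_fin_one]
    rw [norm_div_two]
    congr 1
    have h4 := Real.sq_sqrt hnn
    rw [show (s - d - k + -k) ^ 2 + (√((1 - k) * (t + k)) - -√((1 - k) * (t + k))) ^ 2 = (s + d) ^ 2 by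
      linear_combination 4 * h4 - 4 * hdk]
    exact Real.sqrt_sq h2.le
  have hn2 : ‖(cab (MM (√((1 - k) * (t + k))) k (s - d - k))).2‖ = (s - d) / 2 := by
    simp only [cab, MM, Matrix.of_apply, Matrix.cons_val', Matrix.cons_val_zero, Matrix.cons_val_one,
      Matrix.cons_val_fin_one]
    rw [norm_div_two]
    congr 1
    rw [show (s - d - k - -k) ^ 2 + (√((1 - k) * (t + k)) + -√((1 - k) * (t + k))) ^ 2 = (s - d) ^ 2 by
      ring]
    exact Real.sqrt_sq h1.le
  unfold wp
  rw [hn1, hn2, show (s + d) / 2 + (s - d) / 2 = s by ring, show (s + d) / 2 - (s - d) / 2 = d by ring]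

end Pool.Agent.W377.HQ.R3A
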